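import Pool.Agent.W434.NUM.Stm

set_option autoImplicit false

/-! Project NUM: labelling lemma, closed walks, Helly property. -/

namespace Pool.Agent.W469.NUM

open Pool.Agent.W434.NUM

/-- iterated labels -/
def T {A : Type} {n : ℕ} (f : (Fin n → A) → A) (φ : (ℕ → Fin n) → A) :
    ℕ → (ℕ → Fin n) → A
  | 0, h => φ h
  | D + 1, h => f (fun j => T f φ D (hc j h))

theorem lab : S_lab := by
  intro A R n f m φ hn hid hf hφ hR
  have h1 : ∀ D h, R (T f φ D h) (T f φ (D + 1) h) := by
    intro D
    induction D with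
    | zero => intro h; exact hR h
    | succ D ih =>
      intro h
      exact hf _ _ fun j => ih (hc j h)
  have h2 : ∀ D h h', (∀ t < m - D, h t = h' t) → T f φ D h = T f φ D h' := by
    intro D
    induction D with
    | zero =>
      intro h h' hh
      exact hφ h h' (by simpa using hh)
    | succ D ih =>
      intro h h' hh
      change f (fun j => T f φ D (hc j h)) = f (fun j => T f φ D (hc j h'))
      congr 1
      funext j
      apply ih
      intro t ht
      rcases t with _ | s
      · rfl
      · exact hh s (by omega)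
  set h0 : ℕ → Fin n := fun _ => ⟨0, hn⟩ with hh0
  refine ⟨T f φ m h0, ?_⟩
  have e : T f φ (m + 1) h0 = T f φ m h0 := by
    change f (fun j => T f φ m (hc j h0)) = _
    have : (fun j => T f φ m (hc j h0)) = fun _ => T f φ m h0 := by
      funext j
      apply h2
      intro t ht
      omega
    rw [this, hid]
  have := h1 m h0
  rw [e] at this
  exact this

theorem walk {A : Type} {R : A → A → Prop} : ∀ (k : ℕ) (x y : A), Wk R k x y →
    ∃ w : ℕ → A, w 0 = x ∧ w k = y ∧ ∀ t < k, R (w t) (w (t + 1)) := by
  intro k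
  induction k with
  | zero =>
    intro x y h
    exact ⟨fun _ => x, rfl, h, fun t ht => absurd ht (by omega)⟩
  | succ k ih =>
    intro x y h
    obtain ⟨z, hz, hw⟩ := h
    obtain ⟨w, w0, wk, hw2⟩ := ih z y hw
    refine ⟨fun t => if t = 0 then x else w (t - 1), by simp, by simpa using wk, ?_⟩
    intro t ht
    rcases t with _ | s
    · simpa [w0] using hz
    · simpa using hw2 s (by omega)

theorem sca (h1 : S_lab) (h2 : S_clock) : S_sca := by
  intro A R n f hn hNU hf c N hW
  have hW2 : ∀ k, ∃ w : ℕ → A, N ≤ k → (w 0 = c ∧ w k = c ∧ ∀ t < k, R (w t) (w (t + 1))) := by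
    intro k
    by_cases hk : N ≤ k
    · obtain ⟨w, a, b, d⟩ := walk k c c (hW k hk)
      exact ⟨w, fun _ => ⟨a, b, d⟩⟩
    · exact ⟨fun _ => c, fun h => absurd h hk⟩
  choose W hWW using hW2
  set K := max N 1 with hK
  have hNK : N ≤ K := le_max_left _ _
  have h1K : 1 ≤ K := le_max_right _ _
  obtain ⟨m, e, g, i, c1, c2, c3, c4⟩ := h2 n K hn h1K
  have hg : ∀ h, N ≤ g h := fun h => hNK.trans (c2 h).2
  set φ : (ℕ → Fin n) → A := fun h => W (g h) (i h) with hφ
  have hW0 : ∀ h, i h = 0 → φ h = c := by
    intro h hi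
    simp only [hφ]
    rw [hi]
    exact (hWW (g h) (hg h)).1
  obtain ⟨x, hx⟩ : ∃ x, R x c := by
    obtain ⟨a, b, d⟩ := hWW K hNK
    refine ⟨W K (K - 1), ?_⟩
    have := d (K - 1) (by omega)
    rwa [Nat.sub_add_cancel h1K, b] at this
  have hid : ∀ x, f (fun _ => x) = x := by
    intro x
    have := hNU x x ⟨0, hn⟩
    rwa [Function.update_eq_self] at this
  apply h1 A R n f m φ hn hid hf
  · intro h h' hh
    obtain ⟨a, b⟩ := c1 h h' hh
    simp only [hφ]
    rw [a, b]
  · intro h
    have key : ∀ j, R (Function.update (fun _ => φ h) (e h) x j) (φ (hc j h)) := by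
      intro j
      by_cases hj : j = e h
      · subst hj
        rw [Function.update_self, hW0 _ (c4 h)]
        exact hx
      · rw [Function.update_of_ne hj]
        obtain ⟨a, b, d⟩ := hWW (g h) (hg h)
        rcases c3 h j hj with ⟨u1, u2, u3⟩ | ⟨u1, u2⟩
        · have := d (i h) (by omega)
          simp only [hφ]
          rw [u2, u3]
          exact this
        · rw [hW0 _ u2]
          have := d (i h) (by omega)
          rw [u1, b] at this
          exact this
    have := hf _ _ key
    rwa [hNU] at this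

theorem hel : S_hel := by
  classical
  intro W m k X hne hX h2
  have key : ∀ (N : ℕ) (s : Finset (Fin k)), s.card = N → ∃ y, ∀ i ∈ s, y ∈ X i := by
    intro N
    induction N using Nat.strong_induction_on with
    | _ N ih =>
      intro s hs
      rcases Nat.lt_or_ge 2 s.card with h | h
      · obtain ⟨a, ha, b, hb, c, hc, hab, hac, hbc⟩ := Finset.two_lt_card.1 h
        have hlt : ∀ x ∈ s, (s.erase x).card < N := fun x hx => by
          rw [← hs]
          exact Finset.card_erase_lt_of_mem hx
        obtain ⟨p, hp⟩ := ih _ (hlt a ha) (s.erase a) rfl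
        obtain ⟨q, hq⟩ := ih _ (hlt b hb) (s.erase b) rfl
        obtain ⟨r, hr⟩ := ih _ (hlt c hc) (s.erase c) rfl
        refine ⟨m p q r, fun i hi => ?_⟩
        by_cases h1 : i = a
        · subst h1
          exact (hX i q (hq i (Finset.mem_erase.2 ⟨hab, hi⟩)) r
            (hr i (Finset.mem_erase.2 ⟨hac, hi⟩)) p).2.2
        · by_cases h3 : i = b
          · subst h3
            exact (hX i p (hp i (Finset.mem_erase.2 ⟨h1, hi⟩)) r
              (hr i (Finset.mem_erase.2 ⟨hbc, hi⟩)) q).2.1
          · exact (hX i p (hp i (Finset.mem_erase.2 ⟨h1, hi⟩)) q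
              (hq i (Finset.mem_erase.2 ⟨h3, hi⟩)) r).1
      · have h3 : s.card = 0 ∨ s.card = 1 ∨ s.card = 2 := by omega
        rcases h3 with h3 | h3 | h3
        · rw [Finset.card_eq_zero] at h3
          subst h3
          obtain ⟨y⟩ := hne
          exact ⟨y, fun i hi => absurd hi (Finset.notMem_empty i)⟩
        · obtain ⟨a, rfl⟩ := Finset.card_eq_one.1 h3
          obtain ⟨y, hy, _⟩ := h2 a a
          exact ⟨y, fun i hi => by rw [Finset.mem_singleton.1 hi]; exact hy⟩
        · obtain ⟨a, b, _, rfl⟩ := Finset.card_eq_two.1 h3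
          obtain ⟨y, hy, hy'⟩ := h2 a b
          refine ⟨y, fun i hi => ?_⟩
          rcases Finset.mem_insert.1 hi with h | h
          · rw [h]; exact hy
          · rw [Finset.mem_singleton.1 h]; exact hy'
  obtain ⟨y, hy⟩ := key _ Finset.univ rfl
  exact ⟨y, fun i => hy i (Finset.mem_univ i)⟩

end Pool.Agent.W469.NUM
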